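import Pool.Agent.Helper16.HR.Stmts

/-! Module HYP (hypergraph removal, MP_93babf_co): from set systems to hypergraphs. -/

set_option autoImplicit false

namespace Pool.Helper16.HR

open Finset

theorem st_HYP (hNINJ : ST_NINJ) (hIMG : ST_IMG) : ST_HYP := by
  classical
  intro h k m X E hEne hcard hk hm θ hθ hθ1 hRem hX1 hX2 n G hG hcop
  have hh : 1 ≤ h := by
    obtain ⟨e, he⟩ := hEne
    have h1 := hcard e he
    have h2 : e.card ≤ h := by simpa using Finset.card_le_univ e
    omega
  by_cases hc0 : copies E G = 0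
  · exact ⟨∅, empty_subset _, by simp, by rw [sdiff_empty]; exact hc0⟩
  have hn : 1 ≤ n := by
    by_contra hn
    have hn0 : n = 0 := by omega
    subst hn0
    apply hc0
    unfold copies
    have h1 : IsEmpty {φ : Fin h → Fin 0 // Function.Injective φ ∧ ∀ e ∈ E, e.image φ ∈ G} :=
      ⟨fun φ => (φ.1 ⟨0, hh⟩).elim0⟩
    exact Nat.card_of_isEmpty
  have hn' : (0 : ℝ) < n := by exact_mod_cast hn
  have hN : (0 : ℝ) < (n : ℝ) ^ h := by positivity
  have hcopR : (copies E G : ℝ) * X ≤ (n : ℝ) ^ h := by exact_mod_cast hcop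
  have hXn : (X : ℝ) ≤ (n : ℝ) ^ h := by
    have h1 : X ≤ n ^ h :=
      le_trans (Nat.le_mul_of_pos_left X (Nat.pos_of_ne_zero hc0)) hcop
    exact_mod_cast h1
  have hnθ : 2 * (h : ℝ) ^ 2 / θ ≤ n :=
    (pow_le_pow_iff_left₀ (by positivity) hn'.le (by omega : h ≠ 0)).1 (hX2.trans hXn)
  have hnθ' : 2 * (h : ℝ) ^ 2 ≤ n * θ := (div_le_iff₀ hθ).1 hnθ
  have hcopθ : (copies E G : ℝ) ≤ θ / 2 * (n : ℝ) ^ h := by
    have h1 : (copies E G : ℝ) * (2 / θ) ≤ (n : ℝ) ^ h :=
      (mul_le_mul_of_nonneg_left hX1 (Nat.cast_nonneg _)).trans hcopR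
    have h2 : (copies E G : ℝ) = (copies E G : ℝ) * (2 / θ) * (θ / 2) := by
      field_simp
    rw [h2, mul_comm (θ / 2)]
    exact mul_le_mul_of_nonneg_right h1 (by positivity)
  have hnin : ((univ.filter (fun φ : Fin h → Fin n => ¬ Function.Injective φ)).card : ℝ) ≤
      θ / 4 * (n : ℝ) ^ h := by
    have h1 := hNINJ h n hn
    have h2 : (2 : ℝ) * ((univ.filter (fun φ : Fin h → Fin n =>
        ¬ Function.Injective φ)).card : ℝ) * n ≤ (h : ℝ) ^ 2 * (n : ℝ) ^ h := by
      exact_mod_cast h1
    have h3 : (h : ℝ) ^ 2 * (n : ℝ) ^ h ≤ (n * θ / 2) * (n : ℝ) ^ h :=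
      mul_le_mul_of_nonneg_right (by linarith) hN.le
    have h4 := h2.trans h3
    have h5 : ((univ.filter (fun φ : Fin h → Fin n => ¬ Function.Injective φ)).card : ℝ) *
        (2 * n) ≤ (θ / 4 * (n : ℝ) ^ h) * (2 * n) := by
      linarith
    exact le_of_mul_le_mul_right h5 (by positivity)
  have hcardf : (Fintype.card (Fin h → Fin n) : ℝ) = (n : ℝ) ^ h := by simp
  have hcopc : (copies E G : ℝ) = ((univ.filter (fun φ : Fin h → Fin n =>
      Function.Injective φ ∧ ∀ e ∈ E, e.image φ ∈ G)).card : ℝ) := by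
    unfold copies
    rw [Nat.card_eq_fintype_card, Fintype.card_subtype]
  have hdep : ∀ e ∈ E, Dep e (fun x : Fin h → Fin n => e.image x ∈ G) := by
    intro e _ x y hxy
    change (e.image x ∈ G) = (e.image y ∈ G)
    rw [Finset.image_congr (fun i hi => hxy i hi)]
  rcases hRem n hn (fun e x => e.image x ∈ G) hdep with h1 | ⟨Z, hZd, hZa, hZ⟩
  · exfalso
    refine absurd h1 (not_le.2 ?_)
    refine lt_of_le_of_lt (av_mono (g := fun x : Fin h → Fin n =>
      (if (Function.Injective x ∧ ∀ e ∈ E, e.image x ∈ G) then (1 : ℝ) else 0) +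
        (if ¬ Function.Injective x then (1 : ℝ) else 0)) ?_) ?_
    · intro x
      change _ ≤ (if (Function.Injective x ∧ ∀ e ∈ E, e.image x ∈ G) then (1 : ℝ) else 0) +
        (if ¬ Function.Injective x then (1 : ℝ) else 0)
      have hle1 : (∏ e ∈ E, if e.image x ∈ G then (1 : ℝ) else 0) ≤ 1 := by
        refine prod_le_one ?_ ?_
        · intro e _
          split_ifs <;> norm_num
        · intro e _
          split_ifs <;> norm_num
      by_cases hinj : Function.Injective x
      · by_cases hall : ∀ e ∈ E, e.image x ∈ G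
        · rw [if_pos ⟨hinj, hall⟩, if_neg (not_not.2 hinj), add_zero]
          refine prod_le_one ?_ ?_
          · intro e _
            split_ifs <;> norm_num
          · intro e _
            split_ifs <;> norm_num
        · rw [if_neg (fun h2 => hall h2.2), if_neg (not_not.2 hinj), add_zero]
          push Not at hall
          obtain ⟨e, he, heG⟩ := hall
          exact le_of_eq (prod_eq_zero he (if_neg heG))
      · rw [if_neg (fun h2 => hinj h2.1), if_pos hinj, zero_add]
        refine prod_le_one ?_ ?_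
        · intro e _
          split_ifs <;> norm_num
        · intro e _
          split_ifs <;> norm_num
    · unfold av
      rw [hcardf, div_lt_iff₀ hN, sum_add_distrib, sum_boole, sum_boole, ← hcopc]
      have h2 : 0 < θ * (n : ℝ) ^ h := by positivity
      linarith
  · have hEc : 0 < E.card := card_pos.2 hEne
    have hEc' : (0 : ℝ) < E.card := by exact_mod_cast hEc
    have hm' : (0 : ℝ) < m := by exact_mod_cast hm
    refine ⟨G.filter (fun g => ∃ e ∈ E, ∃ x : Fin h → Fin n, Z e x ∧ e.image x = g),
      filter_subset _ _, ?_, ?_⟩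
    · have h1 : G.filter (fun g => ∃ e ∈ E, ∃ x : Fin h → Fin n, Z e x ∧ e.image x = g) ⊆
          E.biUnion (fun e => ((univ : Finset (Fin h → Fin n)).filter (fun x => Z e x)).image
            (fun x => e.image x)) := by
        intro g hg
        obtain ⟨_, e, he, x, hx, hxg⟩ := mem_filter.1 hg
        exact mem_biUnion.2 ⟨e, he, mem_image.2 ⟨x, mem_filter.2 ⟨mem_univ _, hx⟩, hxg⟩⟩
      have h2 : ∀ e ∈ E, ((((univ : Finset (Fin h → Fin n)).filter (fun x => Z e x)).image
          (fun x => e.image x)).card : ℝ) ≤ (n : ℝ) ^ k / (m * E.card) := by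
        intro e he
        have h3 := hIMG h n e (Z e) (hZd e he)
        have h4 : ((((univ : Finset (Fin h → Fin n)).filter (fun x => Z e x)).image
            (fun x => e.image x)).card : ℝ) * (n : ℝ) ^ h ≤
            (n : ℝ) ^ k * (((univ : Finset (Fin h → Fin n)).filter (fun x => Z e x)).card : ℝ) := by
          rw [hcard e he] at h3
          exact_mod_cast h3
        have h5 := hZa e he
        unfold av at h5
        rw [hcardf, sum_boole, div_le_iff₀ hN] at h5
        push_cast at h5
        have h6 := h4.trans (mul_le_mul_of_nonneg_left h5 (by positivity : (0 : ℝ) ≤ (n : ℝ) ^ k))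
        have h7 : ((((univ : Finset (Fin h → Fin n)).filter (fun x => Z e x)).image
            (fun x => e.image x)).card : ℝ) * (n : ℝ) ^ h ≤
            ((n : ℝ) ^ k / (m * E.card)) * (n : ℝ) ^ h := by
          refine h6.trans (le_of_eq ?_)
          ring
        exact le_of_mul_le_mul_right h7 hN
      have h3 : ((G.filter (fun g => ∃ e ∈ E, ∃ x : Fin h → Fin n,
          Z e x ∧ e.image x = g)).card : ℝ) ≤ (n : ℝ) ^ k / m := by
        calc ((G.filter (fun g => ∃ e ∈ E, ∃ x : Fin h → Fin n,
              Z e x ∧ e.image x = g)).card : ℝ)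
            ≤ ((E.biUnion (fun e => ((univ : Finset (Fin h → Fin n)).filter
                (fun x => Z e x)).image (fun x => e.image x))).card : ℝ) := by
              exact_mod_cast card_le_card h1
          _ ≤ ((∑ e ∈ E, (((univ : Finset (Fin h → Fin n)).filter
                (fun x => Z e x)).image (fun x => e.image x)).card : ℕ) : ℝ) := by
              exact_mod_cast card_biUnion_le
          _ = ∑ e ∈ E, ((((univ : Finset (Fin h → Fin n)).filter
                (fun x => Z e x)).image (fun x => e.image x)).card : ℝ) := by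
              push_cast
              rfl
          _ ≤ ∑ _e ∈ E, (n : ℝ) ^ k / (m * E.card) := sum_le_sum h2
          _ = (n : ℝ) ^ k / m := by
              rw [sum_const, nsmul_eq_mul]
              field_simp
      have h4 := (le_div_iff₀ hm').1 h3
      exact_mod_cast h4
    · unfold copies
      have h1 : IsEmpty {φ : Fin h → Fin n // Function.Injective φ ∧ ∀ e ∈ E, e.image φ ∈
          G \ G.filter (fun g => ∃ e ∈ E, ∃ x : Fin h → Fin n, Z e x ∧ e.image x = g)} := by
        refine ⟨fun φ => hZ φ.1 ?_⟩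
        intro e he
        have h2 := φ.2.2 e he
        rw [mem_sdiff, mem_filter] at h2
        exact ⟨h2.1, fun h3 => h2.2 ⟨h2.1, e, he, φ.1, h3, rfl⟩⟩
      exact Nat.card_of_isEmpty

end Pool.Helper16.HR
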